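import Pool.Agent.Helper18.KO.Defs

/-!
# KO, part CHEAPV: cheap generating lists for weights of edges and vertices
-/

set_option autoImplicit false
set_option linter.unusedSectionVars false

namespace Pool.Agent.Helper61.KO

open Finset
open BNTW hiding supp mem_supp inc
open Pool.Agent.Helper36.BN

section

variable {V E : Type} [Fintype V] [DecidableEq V] [Fintype E] [DecidableEq E]

/-- the potential of a vertex -/
def ph (A l β d : ℕ) : ℕ := 3 * A * min d (2 ^ l + 1) + 3 * β * d

/-- the bound of the total cost -/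
def Ph (A l β : ℕ) (s t : E → V) (F : Finset E) (a : E → ℕ) (u : V → ℕ) : ℕ :=
  3 * A * ∑ e ∈ F, a e + ∑ v, u v * ph A l β (dg s t F v)

theorem ph_mono {A l β d d' : ℕ} (h : d ≤ d') : ph A l β d ≤ ph A l β d' := by
  unfold ph
  have h1 : min d (2 ^ l + 1) ≤ min d' (2 ^ l + 1) := min_le_min h le_rfl
  exact Nat.add_le_add (Nat.mul_le_mul_left _ h1) (Nat.mul_le_mul_left _ h)

theorem ph_zero {A l β : ℕ} : ph A l β 0 = 0 := by simp [ph]

theorem ph_succ {A l β d : ℕ} : ph A l β d + 3 * β ≤ ph A l β (d + 1) := by
  unfold ph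
  have h1 : 3 * A * min d (2 ^ l + 1) ≤ 3 * A * min (d + 1) (2 ^ l + 1) :=
    Nat.mul_le_mul_left _ (min_le_min (Nat.le_succ d) le_rfl)
  have h2 : 3 * β * (d + 1) = 3 * β * d + 3 * β := by ring
  omega

theorem ph_succ' {A l β d : ℕ} (h : d ≤ 2 ^ l) :
    ph A l β d + (3 * A + 3 * β) ≤ ph A l β (d + 1) := by
  unfold ph
  have h1 : min d (2 ^ l + 1) = d := min_eq_left (by omega)
  have h2 : min (d + 1) (2 ^ l + 1) = d + 1 := min_eq_left (by omega)
  rw [h1, h2]
  have h3 : 3 * β * (d + 1) = 3 * β * d + 3 * β := by ring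
  have h4 : 3 * A * (d + 1) = 3 * A * d + 3 * A := by ring
  omega

theorem dg_mono {s t : E → V} {F F' : Finset E} (h : F' ⊆ F) (v : V) :
    dg s t F' v ≤ dg s t F v :=
  card_le_card (filter_subset_filter _ h)

theorem dg_erase {s t : E → V} {F : Finset E} {e : E} {v : V} (he : e ∈ F)
    (hv : s e = v ∨ t e = v) : dg s t (F.erase e) v + 1 = dg s t F v := by
  unfold dg
  rw [filter_erase]
  exact card_erase_add_one (mem_filter.2 ⟨he, hv⟩)

theorem drop {A l β : ℕ} {s t : E → V} {F : Finset E} (a : E → ℕ) (u : V → ℕ) {e : E} {v : V}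
    (c : ℕ) (he : e ∈ F) (hc : ph A l β (dg s t (F.erase e) v) + c ≤ ph A l β (dg s t F v)) :
    Ph A l β s t (F.erase e) a u + 3 * A * a e + u v * c ≤ Ph A l β s t F a u := by
  unfold Ph
  have h0 : ∑ e ∈ F, a e = ∑ e ∈ F.erase e, a e + a e := (sum_erase_add _ _ he).symm
  have h1 : ∑ v', u v' * ph A l β (dg s t (F.erase e) v') + u v * c ≤
      ∑ v', u v' * ph A l β (dg s t F v') := by
    have h2 : u v * c = ∑ v', if v' = v then u v * c else 0 := by simp
    rw [h2, ← sum_add_distrib]
    apply sum_le_sum
    intro v' _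
    by_cases h : v' = v
    · subst h
      rw [if_pos rfl, ← mul_add]
      exact Nat.mul_le_mul_left _ hc
    · rw [if_neg h, add_zero]
      exact Nat.mul_le_mul_left _ (ph_mono (dg_mono (erase_subset _ _) _))
  rw [h0, mul_add]
  omega

theorem Ph_erase {A l β : ℕ} {s t : E → V} {F : Finset E} (a : E → ℕ) (u : V → ℕ) (e : E) :
    Ph A l β s t (F.erase e) a u ≤ Ph A l β s t F a u := by
  unfold Ph
  refine Nat.add_le_add (Nat.mul_le_mul_left _ (sum_le_sum_of_subset (erase_subset _ _))) ?_
  exact sum_le_sum fun v _ => Nat.mul_le_mul_left _ (ph_mono (dg_mono (erase_subset _ _) _))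

theorem cost_eq (s t : E → V) (a : E → ℕ) (u : V → ℕ) (x : E → ZMod 2) :
    cost s t a u x = wt a x + ∑ v ∈ tch s t x, u v := rfl

/-- the number of edges of a vector with degrees at most two -/
theorem card_supp {s t : E → V} {y : E → ZMod 2} (hl : ∀ e, y e ≠ 0 → s e ≠ t e)
    (h : ∀ v, (univ.filter (fun e => y e ≠ 0 ∧ (s e = v ∨ t e = v))).card ≤ 2) :
    (supp y).card ≤ (tch s t y).card := by
  have h1 : ∑ v ∈ tch s t y, (univ.filter (fun e => y e ≠ 0 ∧ (s e = v ∨ t e = v))).card ≤
      (tch s t y).card * 2 := sum_le_card_nsmul _ _ _ fun v _ => h v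
  have h2 : ∑ v ∈ tch s t y, (univ.filter (fun e => y e ≠ 0 ∧ (s e = v ∨ t e = v))).card =
      ∑ v, ∑ e, if y e ≠ 0 ∧ (s e = v ∨ t e = v) then 1 else 0 := by
    rw [← sum_subset (subset_univ (tch s t y))]
    · refine sum_congr rfl fun v _ => ?_
      rw [card_filter]
    · intro v _ hv
      apply sum_eq_zero
      intro e _
      rw [if_neg]
      rintro ⟨h3, h4⟩
      exact hv (mem_filter.2 ⟨mem_univ _, e, h3, h4⟩)
  have h3 : ∑ v, ∑ e, (if y e ≠ 0 ∧ (s e = v ∨ t e = v) then 1 else 0) = (supp y).card * 2 := by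
    rw [sum_comm]
    have h4 : ∀ e, ∑ v, (if y e ≠ 0 ∧ (s e = v ∨ t e = v) then 1 else 0) =
        if y e ≠ 0 then 2 else 0 := by
      intro e
      by_cases hy : y e ≠ 0
      · rw [if_pos hy]
        have h5 : ∀ v, (if y e ≠ 0 ∧ (s e = v ∨ t e = v) then 1 else 0) =
            (if v = s e then 1 else 0) + (if v = t e then 1 else 0) := by
          intro v
          have hne := hl e hy
          by_cases h6 : s e = v
          · have h7 : ¬ v = t e := fun h' => hne (h6.trans h')
            simp [hy, h6, h7]
          · by_cases h7 : t e = v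
            · have h8 : ¬ v = s e := fun h' => h6 h'.symm
              simp [hy, h7, h8]
            · have h8 : ¬ v = s e := fun h' => h6 h'.symm
              have h9 : ¬ v = t e := fun h' => h7 h'.symm
              simp [h6, h7, h8, h9]
        rw [sum_congr rfl fun v _ => h5 v, sum_add_distrib]
        simp
      · rw [if_neg hy]
        apply sum_eq_zero
        intro v _
        rw [if_neg fun h => hy h.1]
    rw [sum_congr rfl fun e _ => h4 e, ← sum_filter]
    simp [supp]
  omega

theorem sum_le_max {S : Finset V} (u : V → ℕ) {n : ℕ} (h : S.card ≤ n) :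
    (∑ v ∈ S, u v = 0) ∨ ∃ v ∈ S, ∑ v ∈ S, u v ≤ n * u v := by
  rcases S.eq_empty_or_nonempty with h0 | h0
  · left
    rw [h0, sum_empty]
  · right
    obtain ⟨v, hv, hmax⟩ := exists_max_image S u h0
    exact ⟨v, hv, (sum_le_card_nsmul _ _ _ hmax).trans (Nat.mul_le_mul_right _ h)⟩

/-- a cheap vector -/
theorem good_edge (h1 : S_KRAFT) (h2 : S_MIN1) {J K l β : ℕ} (hβ : 2 * J + 3 * K ≤ β * l)
    (hl0 : 1 ≤ l)
    {F : Finset E} {s t : E → V} (a : E → ℕ) (u : V → ℕ) (hF : F.Nonempty)
    (hl : ∀ e ∈ F, s e ≠ t e) (hd : ∀ v, dg s t F v = 0 ∨ 3 ≤ dg s t F v)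
    (hJ : (univ.filter (fun v => dg s t F v ≠ 0)).card ≤ 2 ^ J) (hK : ∀ v, dg s t F v ≤ 2 ^ K) :
    ∃ c ∈ cyc s t F, ∃ e ∈ F, c e ≠ 0 ∧
      cost s t a u c + Ph (2 * J + 3 * K) l β s t (F.erase e) a u ≤
        Ph (2 * J + 3 * K) l β s t F a u := by
  obtain ⟨x, hx, hx0, hxb⟩ := h1 V E s t F J K hF hl hd hJ hK
  obtain ⟨y, hy, hy0, hyx, hy2⟩ := h2 V E s t F hl x hx hx0
  set A := 2 * J + 3 * K with hA
  have hyF : ∀ e, y e ≠ 0 → e ∈ F := by
    intro e he
    by_contra h
    exact he (hy.1 e h)
  have htch : tch s t y ⊆ tch s t x := by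
    intro v hv
    obtain ⟨e, he, hev⟩ := (mem_filter.1 hv).2
    exact mem_filter.2 ⟨mem_univ _, e, hyx e he, hev⟩
  have hyb : ∑ v ∈ tch s t y, Nat.log 2 (dg s t F v - 1) ≤ A :=
    (sum_le_sum_of_subset htch).trans hxb
  have hdeg : ∀ v ∈ tch s t y, 3 ≤ dg s t F v := by
    intro v hv
    obtain ⟨e, he, hev⟩ := (mem_filter.1 hv).2
    have : 0 < dg s t F v := card_pos.2 ⟨e, mem_filter.2 ⟨hyF e he, hev⟩⟩
    rcases hd v with h | h
    · omega
    · exact h
  have hn : (tch s t y).card ≤ A := by
    have : (tch s t y).card • 1 ≤ ∑ v ∈ tch s t y, Nat.log 2 (dg s t F v - 1) := by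
      apply card_nsmul_le_sum
      intro v hv
      have := hdeg v hv
      exact Nat.log_pos (by norm_num) (by omega)
    simp only [smul_eq_mul, mul_one] at this
    exact this.trans hyb
  have he : (supp y).card ≤ A :=
    (card_supp (fun e he => hl e (hyF e he)) hy2).trans hn
  set Big := (tch s t y).filter (fun v => ¬ dg s t F v ≤ 2 ^ l) with hBig
  set Sm := (tch s t y).filter (fun v => dg s t F v ≤ 2 ^ l) with hSm
  have hbig : Big.card ≤ β := by
    have h3 : Big.card • l ≤ ∑ v ∈ Big, Nat.log 2 (dg s t F v - 1) := by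
      apply card_nsmul_le_sum
      intro v hv
      have := (mem_filter.1 hv).2
      apply Nat.le_log_of_pow_le (by norm_num)
      omega
    have h4 : ∑ v ∈ Big, Nat.log 2 (dg s t F v - 1) ≤
        ∑ v ∈ tch s t y, Nat.log 2 (dg s t F v - 1) :=
      sum_le_sum_of_subset (filter_subset _ _)
    have h5 : Big.card * l ≤ β * l := by
      rw [smul_eq_mul] at h3
      exact h3.trans (h4.trans (hyb.trans hβ))
    exact Nat.le_of_mul_le_mul_right h5 (by omega)
  have hsm : Sm.card ≤ A := (card_le_card (filter_subset _ _)).trans hn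
  have hne : (supp y).Nonempty := by
    rw [nonempty_iff_ne_empty]
    intro h
    apply hy0
    funext e
    by_contra h'
    have : e ∈ supp y := mem_supp.2 h'
    rw [h] at this
    simp at this
  obtain ⟨e1, he1, hmax⟩ := exists_max_image (supp y) a hne
  have he1' : y e1 ≠ 0 := mem_supp.1 he1
  have hS1 : wt a y ≤ A * a e1 :=
    (wt_le a y e1 hmax).trans (Nat.mul_le_mul_right _ he)
  have hS2 := sum_le_max (S := Sm) u hsm
  have hS3 := sum_le_max (S := Big) u hbig
  have hcost : cost s t a u y = wt a y + ∑ v ∈ Sm, u v + ∑ v ∈ Big, u v := by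
    rw [cost_eq, hSm, hBig, add_assoc, sum_filter_add_sum_filter_not]
  refine ⟨y, hy, ?_⟩
  have c1 : wt a y ≤ A * a e1 → ∑ v ∈ Sm, u v ≤ wt a y → ∑ v ∈ Big, u v ≤ wt a y →
      ∃ e ∈ F, y e ≠ 0 ∧ cost s t a u y + Ph A l β s t (F.erase e) a u ≤ Ph A l β s t F a u := by
    intro q1 q2 q3
    refine ⟨e1, hyF e1 he1', he1', ?_⟩
    have h3 := drop (A := A) (l := l) (β := β) (s := s) (t := t) a u (v := s e1) 0 (hyF e1 he1')
      (by rw [add_zero]; exact ph_mono (dg_mono (erase_subset _ _) _))
    have h4 : 3 * A * a e1 = 3 * (A * a e1) := by ring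
    rw [hcost]
    omega
  by_cases q1 : ∑ v ∈ Sm, u v ≤ wt a y ∧ ∑ v ∈ Big, u v ≤ wt a y
  · exact c1 hS1 q1.1 q1.2
  by_cases q2 : ∑ v ∈ Big, u v ≤ ∑ v ∈ Sm, u v
  · -- a small vertex
    have h0 : wt a y < ∑ v ∈ Sm, u v := by
      by_contra h
      apply q1
      constructor <;> omega
    rcases hS2 with h | ⟨v, hv, hvs⟩
    · omega
    obtain ⟨hv1, hv2⟩ := mem_filter.1 hv
    obtain ⟨e, he, hev⟩ := (mem_filter.1 hv1).2
    refine ⟨e, hyF e he, he, ?_⟩
    have h5 := dg_erase (s := s) (t := t) (hyF e he) hev
    have h3 := drop (A := A) (l := l) (β := β) (s := s) (t := t) a u (v := v) (3 * A + 3 * β)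
      (hyF e he) (by rw [← h5]; exact ph_succ' (by omega))
    have h4 : u v * (3 * A + 3 * β) = 3 * (A * u v) + 3 * (β * u v) := by ring
    rw [hcost]
    omega
  · -- a big vertex
    rcases hS3 with h | ⟨v, hv, hvs⟩
    · omega
    obtain ⟨hv1, hv2⟩ := mem_filter.1 hv
    obtain ⟨e, he, hev⟩ := (mem_filter.1 hv1).2
    refine ⟨e, hyF e he, he, ?_⟩
    have h5 := dg_erase (s := s) (t := t) (hyF e he) hev
    have h3 := drop (A := A) (l := l) (β := β) (s := s) (t := t) a u (v := v) (3 * β)
      (hyF e he) (by rw [← h5]; exact ph_succ)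
    have h4 : u v * (3 * β) = 3 * (β * u v) := by ring
    have h6 : wt a y ≤ ∑ v ∈ Big, u v := by
      by_contra h
      apply q1
      constructor <;> omega
    rw [hcost]
    omega

/-! ### contraction -/

section contract

variable {s t : E → V} {F : Finset E} {v w : V} {e f : E}

theorem mv_eq_v (hwv : w ≠ v) (q : V) : mv v w q ≠ v := by
  unfold mv
  by_cases h : q = v
  · rw [if_pos h]; exact hwv
  · rw [if_neg h]; exact h

theorem dg_v (hwv : w ≠ v) (F : Finset E) : dg (mv v w ∘ s) (mv v w ∘ t) F v = 0 := by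
  unfold dg
  rw [card_eq_zero, filter_eq_empty_iff]
  rintro g _ (h | h)
  · exact mv_eq_v hwv _ h
  · exact mv_eq_v hwv _ h

theorem dg_other (hf : f ∈ F) (hfw : s f = w ∨ t f = w)
    (hv : ∀ g ∈ F, g ≠ f → (s g = v ∨ t g = v) → g = e) (p : V) :
    dg (mv v w ∘ s) (mv v w ∘ t) (F.erase f) p ≤ dg s t F p := by
  by_cases hpw : p = w
  · subst hpw
    have h1 : ((F.erase f).filter fun g => (mv v p ∘ s) g = p ∨ (mv v p ∘ t) g = p) ⊆
        insert e ((F.erase f).filter fun g => s g = p ∨ t g = p) := by
      intro g hg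
      obtain ⟨hg1, hg2⟩ := mem_filter.1 hg
      obtain ⟨hg3, hg4⟩ := mem_erase.1 hg1
      by_cases h2 : s g = v ∨ t g = v
      · rw [hv g hg4 hg3 h2]
        exact mem_insert_self _ _
      · push Not at h2
        apply mem_insert_of_mem
        refine mem_filter.2 ⟨hg1, ?_⟩
        simpa [mv, h2.1, h2.2] using hg2
    unfold dg
    refine (card_le_card h1).trans ((card_insert_le _ _).trans ?_)
    have := dg_erase (s := s) (t := t) (v := p) hf hfw
    unfold dg at this
    omega
  · unfold dg
    apply card_le_card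
    intro g hg
    obtain ⟨hg1, hg2⟩ := mem_filter.1 hg
    obtain ⟨hg3, hg4⟩ := mem_erase.1 hg1
    refine mem_filter.2 ⟨hg4, ?_⟩
    have key : ∀ q, mv v w q = p → q = p := by
      intro q hq
      unfold mv at hq
      by_cases h : q = v
      · rw [if_pos h] at hq
        exact absurd hq.symm hpw
      · rwa [if_neg h] at hq
    rcases hg2 with h | h
    · exact Or.inl (key _ h)
    · exact Or.inr (key _ h)

theorem cost_lift (a : E → ℕ) (u : V → ℕ) (hef : e ≠ f)
    (hev : s e = v ∨ t e = v) (hfends : ∀ p, (s f = p ∨ t f = p) → p = v ∨ p = w)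
    {y : E → ZMod 2} (hyf : y f = 0)
    (hyv : ∀ g, y g ≠ 0 → (s g = v ∨ t g = v) → g = e) :
    cost s t a u (lift e f y) ≤
      cost (mv v w ∘ s) (mv v w ∘ t) (fun g => a g + if g = e then a f + u v else 0) u y := by
  rw [cost_eq, cost_eq, wt_lift a hef hyf]
  have h1 : wt (fun g => a g + if g = e then a f + u v else 0) y =
      wt (fun g => a g + if g = e then a f else 0) y + if y e ≠ 0 then u v else 0 := by
    unfold wt
    have h2 : (if y e ≠ 0 then u v else 0) = ∑ g, if g = e then (if y e ≠ 0 then u v else 0) else 0 := by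
      simp
    rw [h2, ← sum_add_distrib]
    refine sum_congr rfl fun g _ => ?_
    by_cases h3 : g = e
    · subst h3
      by_cases h4 : y g ≠ 0
      · simp [h4, add_assoc]
      · simp only [h4, if_false]
        simp
    · simp [h3]
  have h2 : ∑ p ∈ tch s t (lift e f y), u p ≤
      ∑ p ∈ tch (mv v w ∘ s) (mv v w ∘ t) y, u p + if y e ≠ 0 then u v else 0 := by
    have hmv : ∀ q, q ≠ v → mv v w q = q := fun q hq => by unfold mv; rw [if_neg hq]
    have hmv' : mv v w v = w := by unfold mv; rw [if_pos rfl]
    have h3 : tch s t (lift e f y) ⊆ tch (mv v w ∘ s) (mv v w ∘ t) y ∪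
        (if y e ≠ 0 then {v} else ∅) := by
      intro p hp
      obtain ⟨g, hg, hgp⟩ := (mem_filter.1 hp).2
      rw [lift_apply] at hg
      by_cases hpv : p = v
      · subst hpv
        have hye : y e ≠ 0 := by
          by_cases h4 : g = f
          · rwa [if_pos h4] at hg
          · rw [if_neg h4] at hg
            rwa [hyv g hg hgp] at hg
        rw [if_pos hye]
        exact mem_union_right _ (mem_singleton_self _)
      · apply mem_union_left
        refine mem_filter.2 ⟨mem_univ _, ?_⟩
        by_cases h4 : g = f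
        · rw [if_pos h4] at hg
          subst h4
          rcases hfends p hgp with h5 | h5
          · exact absurd h5 hpv
          · refine ⟨e, hg, ?_⟩
            rcases hev with h6 | h6
            · left
              show mv v w (s e) = p
              rw [h6, hmv', h5]
            · right
              show mv v w (t e) = p
              rw [h6, hmv', h5]
        · rw [if_neg h4] at hg
          refine ⟨g, hg, ?_⟩
          rcases hgp with h5 | h5
          · left
            show mv v w (s g) = p
            rw [h5, hmv p hpv]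
          · right
            show mv v w (t g) = p
            rw [h5, hmv p hpv]
    refine (sum_le_sum_of_subset h3).trans ?_
    refine le_trans (le_of_le_of_eq (Nat.le_add_right _ _) (sum_union_inter (f := u))) ?_
    by_cases h4 : y e ≠ 0
    · rw [if_pos h4, if_pos h4, sum_singleton]
    · rw [if_neg h4, if_neg h4, sum_empty]
  rw [h1]
  omega

end contract

/-- **CHEAPV.** -/
theorem cheapv (h1 : S_KRAFT) (h2 : S_MIN1) {J K l β : ℕ} (hK1 : 1 ≤ K)
    (hβ : 2 * J + 3 * K ≤ β * l) :
    ∀ (m : ℕ) (F : Finset E), F.card = m → ∀ (s t : E → V) (a : E → ℕ) (u : V → ℕ),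
      (univ.filter (fun v => dg s t F v ≠ 0)).card ≤ 2 ^ J → (∀ v, dg s t F v ≤ 2 ^ K) →
      ∃ X : List (E → ZMod 2), spn X = cyc s t F ∧
        (X.map (cost s t a u)).sum ≤ Ph (2 * J + 3 * K) l β s t F a u := by
  have hl0 : 1 ≤ l := by
    rcases Nat.eq_zero_or_pos l with h | h
    · subst h; omega
    · exact h
  have hβ0 : 1 ≤ β := by
    rcases Nat.eq_zero_or_pos β with h | h
    · subst h; omega
    · exact h
  intro m
  induction m with
  | zero =>
    intro F hF s t a u _ _
    rw [card_eq_zero] at hF
    subst hF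
    refine ⟨[], ?_, by simp⟩
    apply le_antisymm
    · unfold spn
      rw [Submodule.span_le]
      intro x hx
      simp at hx
    · intro x hx
      have : x = 0 := by funext e; exact hx.1 e (by simp)
      rw [this]
      exact Submodule.zero_mem _
  | succ m ih =>
    intro F hF s t a u hJ hK
    have hFne : F.Nonempty := by rw [← card_pos]; omega
    set A := 2 * J + 3 * K with hA
    have hA3 : 3 ≤ A := by omega
    have ihe : ∀ e ∈ F, ∃ X : List (E → ZMod 2), spn X = cyc s t (F.erase e) ∧
        (X.map (cost s t a u)).sum ≤ Ph A l β s t (F.erase e) a u := by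
      intro e he
      apply ih (F.erase e) (by rw [card_erase_of_mem he]; omega) s t a u
      · refine (card_le_card ?_).trans hJ
        intro v hv
        have h3 := (mem_filter.1 hv).2
        have h4 : dg s t (F.erase e) v ≤ dg s t F v := dg_mono (erase_subset _ _) _
        exact mem_filter.2 ⟨mem_univ _, by omega⟩
      · exact fun v => (dg_mono (erase_subset _ _) _).trans (hK v)
    -- removing an edge on a cheap cycle
    have key : ∀ c ∈ cyc s t F, ∀ e ∈ F, c e ≠ 0 →
        cost s t a u c + Ph A l β s t (F.erase e) a u ≤ Ph A l β s t F a u →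
        ∃ X : List (E → ZMod 2), spn X = cyc s t F ∧
          (X.map (cost s t a u)).sum ≤ Ph A l β s t F a u := by
      intro c hc e heF he hle
      obtain ⟨X, hX, hXw⟩ := ihe e heF
      refine ⟨c :: X, span_cons hc he hX, ?_⟩
      rw [List.map_cons, List.sum_cons]
      omega
    by_cases hloop : ∃ e ∈ F, s e = t e
    · -- a loop
      obtain ⟨e, he, hst⟩ := hloop
      apply key (Pi.single e 1) ?_ e he (by simp)
      · have h3 : cost s t a u (Pi.single e (1 : ZMod 2) : E → ZMod 2) ≤ a e + u (s e) := by
          rw [cost_eq]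
          have h4 : wt a (Pi.single e (1 : ZMod 2) : E → ZMod 2) = a e := by
            unfold wt
            rw [sum_eq_single e]
            · simp
            · intro g _ hg
              rw [Pi.single_eq_of_ne hg]
              simp
            · intro h
              exact absurd (mem_univ _) h
          have h5 : tch s t (Pi.single e (1 : ZMod 2) : E → ZMod 2) ⊆ {s e} := by
            intro v hv
            obtain ⟨g, hg, hgv⟩ := (mem_filter.1 hv).2
            have hge : g = e := by
              by_contra h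
              exact hg (Pi.single_eq_of_ne h _)
            subst hge
            rw [mem_singleton]
            rcases hgv with h | h
            · exact h.symm
            · rw [hst]; exact h.symm
          have h6 := sum_le_sum_of_subset (f := u) h5
          rw [sum_singleton] at h6
          omega
        have h4 := dg_erase (s := s) (t := t) (v := s e) he (Or.inl rfl)
        have h5 := drop (A := A) (l := l) (β := β) (s := s) (t := t) a u (v := s e) (3 * β)
          he (by rw [← h4]; exact ph_succ)
        have h6 : a e ≤ 3 * A * a e := Nat.le_mul_of_pos_left _ (by omega)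
        have h7 : u (s e) ≤ u (s e) * (3 * β) := Nat.le_mul_of_pos_right _ (by omega)
        omega
      · refine ⟨fun g hg => ?_, fun p => ?_⟩
        · rw [Pi.single_eq_of_ne]
          intro h; exact hg (h ▸ he)
        · have : ∀ g, (Pi.single e (1 : ZMod 2) : E → ZMod 2) g * inc s t p g = 0 := by
            intro g
            by_cases h : g = e
            · subst h
              unfold inc
              rw [hst, z2_add_self, mul_zero]
            · rw [Pi.single_eq_of_ne h, zero_mul]
          exact sum_eq_zero fun g _ => this g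
    push Not at hloop
    by_cases hdeg : ∃ v, (∃ e ∈ F, s e = v ∨ t e = v) ∧
        (F.filter fun e => s e = v ∨ t e = v).card < 3
    swap
    · push Not at hdeg
      have hd : ∀ v, dg s t F v = 0 ∨ 3 ≤ dg s t F v := by
        intro v
        by_cases h : ∃ e ∈ F, s e = v ∨ t e = v
        · exact Or.inr (hdeg v h)
        · left
          unfold dg
          rw [card_eq_zero, filter_eq_empty_iff]
          intro e he hev
          exact h ⟨e, he, hev⟩
      obtain ⟨c, hc, e, heF, he, hle⟩ := good_edge h1 h2 hβ hl0 a u hFne hloop hd hJ hK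
      exact key c hc e heF he hle
    obtain ⟨v, ⟨f, hf, hfv⟩, hlt⟩ := hdeg
    have hfmem : f ∈ F.filter fun e => s e = v ∨ t e = v := mem_filter.2 ⟨hf, hfv⟩
    -- the other end of `f`
    obtain ⟨w, hwv, hfu, hfv', hfp, hfw, hfends⟩ : ∃ w, w ≠ v ∧ inc s t w f = 1 ∧
        inc s t v f = 1 ∧ (∀ p, p ≠ w → p ≠ v → inc s t p f = 0) ∧ (s f = w ∨ t f = w) ∧
        ∀ p, (s f = p ∨ t f = p) → p = v ∨ p = w := by
      have hne := hloop f hf
      rcases hfv with h | h
      · refine ⟨t f, fun h' => hne (h.trans h'.symm), ?_, ?_, ?_, Or.inr rfl, ?_⟩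
        · simp [inc, hne]
        · rw [← h]; simp [inc, hne.symm]
        · intro p h1 h2
          simp [inc, h ▸ h2.symm, h1.symm]
        · rintro p (h' | h')
          · exact Or.inl (h'.symm.trans h)
          · exact Or.inr h'.symm
      · refine ⟨s f, fun h' => hne (h'.trans h.symm), ?_, ?_, ?_, Or.inl rfl, ?_⟩
        · simp [inc, hne.symm]
        · rw [← h]; simp [inc, hne]
        · intro p h1 h2
          simp [inc, h ▸ h2.symm, h1.symm]
        · rintro p (h' | h')
          · exact Or.inr h'.symm
          · exact Or.inl (h'.symm.trans h)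
    have hinc0 : ∀ g ∈ F, g ∉ (F.filter fun e => s e = v ∨ t e = v) → inc s t v g = 0 := by
      intro g hg hgn
      have : ¬ (s g = v ∨ t g = v) := fun h => hgn (mem_filter.2 ⟨hg, h⟩)
      push Not at this
      simp [inc, this.1, this.2]
    by_cases h1' : ∃ e ∈ F, e ≠ f ∧ (s e = v ∨ t e = v)
    · -- two edges in series
      obtain ⟨e, he, hef, hev⟩ := h1'
      have hemem : e ∈ F.filter fun e => s e = v ∨ t e = v := mem_filter.2 ⟨he, hev⟩
      have hpair : (F.filter fun e => s e = v ∨ t e = v) = {e, f} := by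
        symm
        apply eq_of_subset_of_card_le
        · intro g hg
          rw [mem_insert, mem_singleton] at hg
          rcases hg with h | h
          · rw [h]; exact hemem
          · rw [h]; exact hfmem
        · rw [card_pair hef]; omega
      have hdv : dg s t F v = 2 := by
        unfold dg
        rw [hpair, card_pair hef]
      have hev' : inc s t v e = 1 := by
        have hne := hloop e he
        rcases hev with h | h
        · rw [← h]; simp [inc, hne.symm]
        · rw [← h]; simp [inc, hne]
      have honly : ∀ g ∈ F, g ≠ f → (s g = v ∨ t g = v) → g = e := by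
        intro g hg hgf hgv
        have : g ∈ F.filter fun e => s e = v ∨ t e = v := mem_filter.2 ⟨hg, hgv⟩
        rw [hpair, mem_insert, mem_singleton] at this
        rcases this with h | h
        · exact h
        · exact absurd h hgf
      have hv : ∀ g ∈ F, g ≠ e → g ≠ f → inc s t v g = 0 := by
        intro g hg h1 h2
        apply hinc0 g hg
        rw [hpair, mem_insert, mem_singleton]
        rintro (h | h)
        · exact h1 h
        · exact h2 h
      have hdle : ∀ p, dg (mv v w ∘ s) (mv v w ∘ t) (F.erase f) p ≤ dg s t F p :=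
        fun p => dg_other hf hfw honly p
      obtain ⟨X, hX, hXw⟩ := ih (F.erase f) (by rw [card_erase_of_mem hf]; omega) (mv v w ∘ s)
        (mv v w ∘ t) (fun g => a g + if g = e then a f + u v else 0) u (by
          refine (card_le_card ?_).trans hJ
          intro p hp
          have h3 := (mem_filter.1 hp).2
          have h4 := hdle p
          exact mem_filter.2 ⟨mem_univ _, by omega⟩) (fun p => (hdle p).trans (hK p))
      refine ⟨X.map (lift e f), contract_span hwv hf he hef hfu hfv' hfp hev' hv hX, ?_⟩
      have h3 : ((X.map (lift e f)).map (cost s t a u)).sum ≤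
          (X.map (cost (mv v w ∘ s) (mv v w ∘ t)
            (fun g => a g + if g = e then a f + u v else 0) u)).sum := by
        rw [List.map_map]
        apply List.sum_le_sum
        intro y hy
        have hyc : y ∈ cyc (mv v w ∘ s) (mv v w ∘ t) (F.erase f) := by
          rw [← hX]; exact Submodule.subset_span hy
        have hyF : ∀ g, y g ≠ 0 → g ∈ F.erase f := by
          intro g hg
          by_contra h
          exact hg (hyc.1 g h)
        exact cost_lift a u hef hev hfends (hyc.1 f (notMem_erase f F))
          (fun g hg hgv => honly g (mem_of_mem_erase (hyF g hg)) (ne_of_mem_erase (hyF g hg)) hgv)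
      refine (h3.trans hXw).trans ?_
      have h4 : ∑ g ∈ F.erase f, (a g + if g = e then a f + u v else 0) =
          ∑ g ∈ F, a g + u v := by
        rw [sum_add_distrib, sum_ite_eq', if_pos (mem_erase.2 ⟨hef, he⟩),
          ← sum_erase_add F _ hf]
        ring
      have h5 : ∑ p, u p * ph A l β (dg (mv v w ∘ s) (mv v w ∘ t) (F.erase f) p) +
          u v * ph A l β (dg s t F v) ≤ ∑ p, u p * ph A l β (dg s t F p) := by
        have h6 : u v * ph A l β (dg s t F v) =
            ∑ p, if p = v then u v * ph A l β (dg s t F v) else 0 := by simp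
        rw [h6, ← sum_add_distrib]
        apply sum_le_sum
        intro p _
        by_cases h : p = v
        · subst h
          rw [if_pos rfl, dg_v hwv, ph_zero, mul_zero, zero_add]
        · rw [if_neg h, add_zero]
          exact Nat.mul_le_mul_left _ (ph_mono (hdle p))
      have h6 : 3 * A ≤ ph A l β (dg s t F v) := by
        rw [hdv]
        unfold ph
        have : 1 ≤ 2 ^ l := Nat.one_le_two_pow
        have h7 : min 2 (2 ^ l + 1) = 2 := min_eq_left (by omega)
        rw [h7]
        omega
      have h7 : u v * (3 * A) ≤ u v * ph A l β (dg s t F v) := Nat.mul_le_mul_left _ h6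
      unfold Ph
      rw [h4, mul_add]
      have h8 : 3 * A * u v = u v * (3 * A) := by ring
      omega
    · -- a leaf
      push Not at h1'
      obtain ⟨X, hX, hXw⟩ := ihe f hf
      refine ⟨X, ?_, hXw.trans (Ph_erase a u f)⟩
      rw [hX]
      apply le_antisymm (cyc_mono (erase_subset f F))
      intro x hx
      apply cyc_erase hx
      have h2 := hx.2 v
      have h3 : ∀ g, x g * inc s t v g = if g = f then x f else 0 := by
        intro g
        by_cases h3 : g = f
        · subst h3; simp [hfv']
        · rw [if_neg h3]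
          by_cases h4 : g ∈ F
          · have := h1' g h4 h3
            simp [inc, this.1, this.2]
          · rw [hx.1 g h4, zero_mul]
      rw [sum_congr rfl fun g _ => h3 g] at h2
      simpa using h2

end

theorem t_CHEAPV (h1 : S_KRAFT) (h2 : S_MIN1) : S_CHEAPV := by
  intro J K l β hK1 hβ V E _ _ _ _ F s t a u hJ hK
  exact cheapv h1 h2 hK1 hβ F.card F rfl s t a u hJ hK


end Pool.Agent.Helper61.KO
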